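import Pool.Agent.JWG.Signs

/-!
# Existence of signs
-/

set_option autoImplicit false

namespace Pool.Agent.JWG

open Finset Classical

variable {V : Type*}

/-- **Signs.** -/
theorem exists_signs [Fintype V] (σ p : Equiv.Perm V) {T W L : ℕ} (hW : W = 3 * T + 4)
    (hL : L = 2 * W) (hnum : 16 * ((2 * W + 1) * (8 * L) * 2) * 63 ^ T ≤ 64 ^ T)
    (h0 : ∀ v k, 0 < k → k < L → (σ ^ k) v ≠ v) (hF : Far σ p (2 * W) (4 * L)) :
    ∃ s : V → Bool, ∀ v, s v = s (σ v) → s (p v) = s v ∧ s (p (σ v)) = s v ∧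
      s (p (σ⁻¹ v)) = s v ∧ s (σ (σ v)) ≠ s v ∧ s (σ⁻¹ v) ≠ s v := by
  have hL0 : 0 < L := by omega
  obtain ⟨K⟩ := exists_markers σ L hL0 h0
  -- the local lemma
  obtain ⟨ω, hω⟩ : ∃ ω : Conf V, ∀ m, ¬ Bad K W p T m ω := by
    refine lll (Bad K W p T) (BadD K W p) (bad_dep K W hL0 p hW) ((2 * W + 1) * (8 * L) * 2)
      (by positivity) (fun m => bad_deg K W (by omega) p m) fun m => ?_
    have h1 := bad_cnt K W hF hW m
    have h2 : 64 ^ T * (4 * ((2 * W + 1) * (8 * L) * 2) * cnt (Bad K W p T m)) ≤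
        64 ^ T * tot V (Bool × Bool) := by
      calc 64 ^ T * (4 * ((2 * W + 1) * (8 * L) * 2) * cnt (Bad K W p T m))
          = 4 * ((2 * W + 1) * (8 * L) * 2) * (64 ^ T * cnt (Bad K W p T m)) := by ring
        _ ≤ 4 * ((2 * W + 1) * (8 * L) * 2) * (4 * (63 ^ T * tot V (Bool × Bool))) :=
          Nat.mul_le_mul_left _ h1
        _ = (16 * ((2 * W + 1) * (8 * L) * 2) * 63 ^ T) * tot V (Bool × Bool) := by ring
        _ ≤ 64 ^ T * tot V (Bool × Bool) := Nat.mul_le_mul_right _ hnum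
    exact Nat.le_of_mul_le_mul_left h2 (by positivity)
  have hτ : ∀ m, ∃ t, m ∈ K.S → t < T ∧ Fav K W p m (zz ω m) (lam K ω m) t ω := by
    intro m
    by_cases hm : m ∈ K.S
    · have h1 := hω m
      unfold Bad at h1
      push Not at h1
      obtain ⟨t, ht, h2⟩ := h1 hm
      exact ⟨t, fun _ => ⟨ht, h2⟩⟩
    · exact ⟨0, fun h => absurd h hm⟩
  choose τ hτ using hτ
  let J : V → ℕ := fun m => zz ω m * W + 3 * τ m + 2
  let s : V → Bool := fun v =>
    if K.idx v ≤ J (K.lst v) then xor (lam K ω (K.lst v)) (Nat.bodd (K.idx v))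
    else xor (ω (K.lst v)).2 (Nat.bodd (K.idx v))
  have hz : ∀ m, zz ω m ≤ 1 := by
    intro m
    unfold zz
    split_ifs <;> omega
  have hzW : ∀ m, zz ω m * W ≤ W := fun m => by
    calc zz ω m * W ≤ 1 * W := Nat.mul_le_mul_right _ (hz m)
      _ = W := one_mul W
  have hJ : ∀ m ∈ K.S, J m + 3 < L := by
    intro m hm
    have h1 := (hτ m hm).1
    have h2 := hzW m
    show zz ω m * W + 3 * τ m + 2 + 3 < L
    omega
  -- outside the zones
  have hs : ∀ q, K.idx q / W ≠ zz ω (K.lst q) → s q = sg K W ω q := by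
    intro q hq
    have h1 := (hτ _ (K.lst_mem q)).1
    show (if K.idx q ≤ J (K.lst q) then _ else _) = _
    unfold sg
    rcases Nat.lt_or_ge (K.idx q / W) (zz ω (K.lst q)) with h2 | h2
    · rw [if_pos h2, if_pos]
      have h3 : K.idx q < zz ω (K.lst q) * W := (Nat.div_lt_iff_lt_mul (by omega)).1 h2
      show K.idx q ≤ zz ω (K.lst q) * W + 3 * τ (K.lst q) + 2
      omega
    · have h3 : (zz ω (K.lst q) + 1) * W ≤ K.idx q :=
        (Nat.le_div_iff_mul_le (by omega)).1 (by omega)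
      rw [add_mul, one_mul] at h3
      have h4 : ¬ K.idx q ≤ J (K.lst q) := by
        show ¬ K.idx q ≤ zz ω (K.lst q) * W + 3 * τ (K.lst q) + 2
        omega
      rw [if_neg h4, if_neg (not_lt.2 h2)]
  have hgood : ∀ q b, Good K W q b ω → s q = b := fun q b h => by
    rw [hs q h.1]
    exact h.2
  -- the sign in a block
  have hblock : ∀ m ∈ K.S, ∀ j, j < L → s ((σ ^ j) m) =
      if j ≤ J m then xor (lam K ω m) (Nat.bodd j) else xor (ω m).2 (Nat.bodd j) := by
    intro m hm j hj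
    show (if K.idx ((σ ^ j) m) ≤ J (K.lst ((σ ^ j) m)) then _ else _) = _
    rw [K.idx_mem hm j hj, K.lst_of hm j hj]
  refine ⟨s, fun v hv => ?_⟩
  by_cases hσ : σ v ∈ K.S
  · -- the end of a block
    exfalso
    have h1 := K.le_idx hσ
    have h2 : s v = xor (ω (K.lst v)).2 (Nat.bodd (K.idx v)) := by
      show (if K.idx v ≤ J (K.lst v) then _ else _) = _
      rw [if_neg]
      have := hJ _ (K.lst_mem v)
      omega
    have h3 : s (σ v) = xor (ω (K.lst v)).2 (Nat.bodd (K.idx v + 1)) := by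
      have h4 := hblock _ hσ 0 hL0
      simp only [pow_zero, Equiv.Perm.one_apply, Nat.zero_le, if_true, Nat.bodd_zero,
        Bool.xor_false] at h4
      rw [h4]
      unfold lam Mrk.pm Mrk.len
      have h5 : σ⁻¹ (σ v) = v := by simp
      rw [h5]
    rw [h2, h3, Nat.bodd_succ] at hv
    cases h4 : (ω (K.lst v)).2 <;> cases h5 : (K.idx v).bodd <;> rw [h4, h5] at hv <;>
      simp at hv
  · obtain ⟨h1, h2⟩ := K.step hσ
    obtain ⟨m, hm⟩ : ∃ m, m = K.lst v := ⟨_, rfl⟩
    have hmS : m ∈ K.S := hm ▸ K.lst_mem v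
    have hvv : s v = if K.idx v ≤ J m then xor (lam K ω m) (Nat.bodd (K.idx v))
        else xor (ω m).2 (Nat.bodd (K.idx v)) := by
      rw [hm]
    have hvs : s (σ v) = if K.idx v + 1 ≤ J m then xor (lam K ω m) (Nat.bodd (K.idx v + 1))
        else xor (ω m).2 (Nat.bodd (K.idx v + 1)) := by
      show (if K.idx (σ v) ≤ J (K.lst (σ v)) then _ else _) = _
      rw [h1, h2, hm]
    have hidx : K.idx v = J m := by
      by_contra hne
      rcases Nat.lt_or_gt_of_ne hne with h3 | h3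
      · rw [hvv, hvs, if_pos h3.le, if_pos (Nat.succ_le_of_lt h3), Nat.bodd_succ] at hv
        cases h4 : lam K ω m <;> cases h5 : (K.idx v).bodd <;> rw [h4, h5] at hv <;>
          simp at hv
      · rw [hvv, hvs, if_neg (by omega), if_neg (by omega), Nat.bodd_succ] at hv
        cases h4 : (ω m).2 <;> cases h5 : (K.idx v).bodd <;> rw [h4, h5] at hv <;>
          simp at hv
    obtain ⟨hτ1, hτ2, hτ3, hτ4⟩ := hτ m hmS
    have hJm : J m = zz ω m * W + 3 * τ m + 2 := rfl
    have hJL := hJ m hmS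
    have hv0 : (σ ^ J m) m = v := by
      rw [← hidx, hm]
      exact K.it v
    have hv1 : (σ ^ (J m + 1)) m = σ v := by
      rw [pow_succ', Equiv.Perm.mul_apply, hv0]
    have hv2 : (σ ^ (J m + 2)) m = σ (σ v) := by
      rw [show J m + 2 = (J m + 1) + 1 from rfl, pow_succ', Equiv.Perm.mul_apply, hv1]
    have hv3 : (σ ^ (J m - 1)) m = σ⁻¹ v := by
      rw [Equiv.Perm.eq_inv_iff_eq, ← hv0]
      have : J m = (J m - 1) + 1 := by omega
      conv_rhs => rw [this, pow_succ', Equiv.Perm.mul_apply]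
    have hsv : s v = xor (lam K ω m) (Nat.bodd (J m)) := by
      rw [hvv, if_pos hidx.le, hidx]
    have hb0 := hblock m hmS (J m - 1) (by omega)
    have hb2 := hblock m hmS (J m + 2) (by omega)
    have hb1 := hblock m hmS (J m + 1) (by omega)
    rw [hv3, if_pos (by omega)] at hb0
    rw [hv2, if_neg (by omega)] at hb2
    rw [hv1, if_neg (by omega)] at hb1
    refine ⟨?_, ?_, ?_, ?_, ?_⟩
    · have := hgood _ _ hτ3
      unfold pt at this
      rw [← hJm, hv0] at this
      rw [this, hsv]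
    · have := hgood _ _ hτ4
      unfold pt at this
      rw [show zz ω m * W + 3 * τ m + 3 = J m + 1 from rfl, ← hJm, hv1] at this
      rw [this, hsv]
    · have := hgood _ _ hτ2
      unfold pt at this
      rw [show zz ω m * W + 3 * τ m + 1 = J m - 1 from rfl, ← hJm, hv3] at this
      rw [this, hsv]
    · rw [hv, hb2, hb1]
      rw [show J m + 2 = (J m + 1) + 1 from rfl, Nat.bodd_succ]
      cases (ω m).2 <;> cases (J m + 1).bodd <;> simp
    · rw [hb0, hsv]
      have h3 : J m = (J m - 1) + 1 := by omega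
      have h4 : (J m).bodd = !(J m - 1).bodd := by
        conv_lhs => rw [h3]
        rw [Nat.bodd_succ]
      rw [h4]
      cases lam K ω m <;> cases (J m - 1).bodd <;> simp

end Pool.Agent.JWG
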