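import Mathlib

/-!
# The symmetric local lemma in the variable setting (counting form)
-/

set_option autoImplicit false

namespace Pool.Agent.JWG

open Finset Classical

variable {ι β : Type*} [Fintype ι] [Fintype β]

/-- `P` depends only on the coordinates in `D`. -/
def Dep (P : (ι → β) → Prop) (D : Set ι) : Prop :=
  ∀ ω ω', (∀ i ∈ D, ω i = ω' i) → P ω → P ω'

/-- the number of points with property `P` -/
noncomputable def cnt (P : (ι → β) → Prop) : ℕ := (univ.filter P).card

/-- the number of points -/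
noncomputable def tot (ι β : Type*) [Fintype ι] [Fintype β] : ℕ := Fintype.card (ι → β)

theorem cnt_le_tot (P : (ι → β) → Prop) : cnt P ≤ tot ι β := Finset.card_le_univ _

theorem cnt_mono {P Q : (ι → β) → Prop} (h : ∀ ω, P ω → Q ω) : cnt P ≤ cnt Q := by
  unfold cnt
  refine Finset.card_le_card fun ω hω => ?_
  rw [Finset.mem_filter] at hω ⊢
  exact ⟨hω.1, h _ hω.2⟩

theorem cnt_pos {P : (ι → β) → Prop} (h : 0 < cnt P) : ∃ ω, P ω := by
  obtain ⟨ω, hω⟩ := Finset.card_pos.1 h
  exact ⟨ω, (Finset.mem_filter.1 hω).2⟩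

theorem cnt_true : cnt (fun _ : ι → β => True) = tot ι β := by
  unfold cnt tot
  rw [Finset.filter_true]
  rfl

theorem cnt_split (P Q : (ι → β) → Prop) :
    cnt (fun ω => P ω ∧ Q ω) + cnt (fun ω => ¬ P ω ∧ Q ω) = cnt Q := by
  unfold cnt
  rw [← Finset.card_union_of_disjoint]
  · congr 1
    ext ω
    simp only [Finset.mem_union, Finset.mem_filter, Finset.mem_univ, true_and]
    tauto
  · rw [Finset.disjoint_left]
    intro ω h1 h2
    simp only [Finset.mem_filter, Finset.mem_univ, true_and] at h1 h2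
    exact h2.1 h1.1

theorem cnt_or (P Q : (ι → β) → Prop) : cnt (fun ω => P ω ∨ Q ω) ≤ cnt P + cnt Q := by
  unfold cnt
  refine le_trans (Finset.card_le_card ?_) (Finset.card_union_le _ _)
  intro ω
  simp only [Finset.mem_union, Finset.mem_filter, Finset.mem_univ, true_and]
  exact id

theorem cnt_exists {J : Type*} (S : Finset J) (P : J → (ι → β) → Prop) :
    cnt (fun ω => ∃ j ∈ S, P j ω) ≤ ∑ j ∈ S, cnt (P j) := by
  unfold cnt
  refine le_trans (Finset.card_le_card ?_) (Finset.card_biUnion_le)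
  intro ω
  simp only [Finset.mem_biUnion, Finset.mem_filter, Finset.mem_univ, true_and]
  exact id

/-- Independence of events on disjoint sets of coordinates. -/
theorem indep {P Q : (ι → β) → Prop} {D D' : Set ι} (hP : Dep P D) (hQ : Dep Q D')
    (hd : Disjoint D D') : cnt (fun ω => P ω ∧ Q ω) * tot ι β = cnt P * cnt Q := by
  unfold cnt tot
  rw [← Finset.card_univ, ← Finset.card_product, ← Finset.card_product]
  have hx : ∀ i, i ∈ D' → i ∉ D := fun i h1 h2 => Set.disjoint_left.1 hd h2 h1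
  refine Finset.card_nbij'
    (fun x => (fun i => if i ∈ D then x.1 i else x.2 i, fun i => if i ∈ D then x.2 i else x.1 i))
    (fun x => (fun i => if i ∈ D then x.1 i else x.2 i, fun i => if i ∈ D then x.2 i else x.1 i))
    ?_ ?_ ?_ ?_
  · rintro ⟨p, q⟩ h
    simp only [Finset.coe_product, Set.mem_prod, Finset.mem_coe, Finset.mem_filter,
      Finset.mem_univ, true_and, and_true] at h ⊢
    refine ⟨hP p _ (fun i hi => ?_) h.1, hQ p _ (fun i hi => ?_) h.2⟩
    · simp [hi]
    · simp [hx i hi]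
  · rintro ⟨p, q⟩ h
    simp only [Finset.coe_product, Set.mem_prod, Finset.mem_coe, Finset.mem_filter,
      Finset.mem_univ, true_and, and_true] at h ⊢
    refine ⟨hP p _ (fun i hi => ?_) h.1, hQ q _ (fun i hi => ?_) h.2⟩
    · simp [hi]
    · simp [hx i hi]
  · rintro ⟨p, q⟩ _
    ext i <;> simp only <;> split_ifs <;> rfl
  · rintro ⟨p, q⟩ _
    ext i <;> simp only <;> split_ifs <;> rfl

omit [Fintype ι] [Fintype β] in
theorem Dep.mono {P : (ι → β) → Prop} {D D' : Set ι} (h : Dep P D) (hD : D ⊆ D') : Dep P D' :=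
  fun ω ω' h1 h2 => h ω ω' (fun i hi => h1 i (hD hi)) h2

omit [Fintype ι] [Fintype β] in
theorem Dep.not {P : (ι → β) → Prop} {D : Set ι} (h : Dep P D) : Dep (fun ω => ¬ P ω) D :=
  fun ω ω' h1 h2 h3 => h2 (h ω' ω (fun i hi => (h1 i hi).symm) h3)

omit [Fintype ι] [Fintype β] in
theorem Dep.and {P Q : (ι → β) → Prop} {D : Set ι} (h : Dep P D) (h' : Dep Q D) :
    Dep (fun ω => P ω ∧ Q ω) D :=
  fun ω ω' h1 h2 => ⟨h ω ω' h1 h2.1, h' ω ω' h1 h2.2⟩

omit [Fintype ι] [Fintype β] in
theorem Dep.all {J : Type*} {P : J → (ι → β) → Prop} {S : Set J} {D : Set ι}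
    (h : ∀ j ∈ S, Dep (P j) D) : Dep (fun ω => ∀ j ∈ S, P j ω) D :=
  fun ω ω' h1 h2 j hj => h j hj ω ω' h1 (h2 j hj)

/-- A product bound for events on pairwise disjoint sets of coordinates. -/
theorem prod_bound (P : ℕ → (ι → β) → Prop) (C : ℕ → Set ι) (a b n : ℕ)
    (hP : ∀ t < n, Dep (P t) (C t)) (hC : ∀ s t, s < t → t < n → Disjoint (C s) (C t))
    (hb : ∀ t < n, a * cnt (P t) ≤ b * tot ι β) :
    a ^ n * cnt (fun ω => ∀ t < n, P t ω) ≤ b ^ n * tot ι β := by
  induction n with
  | zero =>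
    have := cnt_le_tot (fun ω : ι → β => ∀ t < 0, P t ω)
    simpa using this
  | succ n ih =>
    have ih' := ih (fun t ht => hP t (by omega)) (fun s t h1 h2 => hC s t h1 (by omega))
      (fun t ht => hb t (by omega))
    rcases Nat.eq_zero_or_pos (tot ι β) with h0 | h0
    · have := cnt_le_tot (fun ω : ι → β => ∀ t < n + 1, P t ω)
      rw [h0] at this ⊢
      have h1 : cnt (fun ω : ι → β => ∀ t < n + 1, P t ω) = 0 := by omega
      rw [h1]
      simp
    have h1 : cnt (fun ω : ι → β => ∀ t < n + 1, P t ω) =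
        cnt (fun ω => P n ω ∧ ∀ t < n, P t ω) := by
      congr 1
      funext ω
      apply propext
      constructor
      · intro h
        exact ⟨h n (by omega), fun t ht => h t (by omega)⟩
      · rintro ⟨h2, h3⟩ t ht
        rcases Nat.lt_succ_iff_lt_or_eq.1 ht with h4 | h4
        · exact h3 t h4
        · rw [h4]
          exact h2
    have h2 : Dep (fun ω => ∀ t < n, P t ω) (⋃ t ∈ {t | t < n}, C t) := by
      intro ω ω' h3 h4 t ht
      refine hP t (by omega) ω ω' (fun i hi => h3 i ?_) (h4 t ht)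
      simp only [Set.mem_iUnion]
      exact ⟨t, ht, hi⟩
    have h3 : Disjoint (C n) (⋃ t ∈ {t | t < n}, C t) := by
      rw [Set.disjoint_left]
      intro i hi h4
      simp only [Set.mem_iUnion] at h4
      obtain ⟨t, ht, h4⟩ := h4
      exact Set.disjoint_left.1 (hC t n ht (by omega)) h4 hi
    have h4 := indep (hP n (by omega)) h2 h3
    rw [h1]
    have h5 : (a ^ (n + 1) * cnt (fun ω => P n ω ∧ ∀ t < n, P t ω)) * tot ι β ≤
        (b ^ (n + 1) * tot ι β) * tot ι β := by
      calc (a ^ (n + 1) * cnt (fun ω => P n ω ∧ ∀ t < n, P t ω)) * tot ι β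
          = (a * cnt (P n)) * (a ^ n * cnt (fun ω => ∀ t < n, P t ω)) := by
            rw [mul_assoc, h4]
            ring
        _ ≤ (b * tot ι β) * (b ^ n * tot ι β) := Nat.mul_le_mul (hb n (by omega)) ih'
        _ = _ := by ring
    exact Nat.le_of_mul_le_mul_right h5 h0

/-- **Local lemma** (symmetric, variable setting). -/
theorem lll [Nonempty β] {J : Type*} [Fintype J] (E : J → (ι → β) → Prop) (D : J → Set ι)
    (hD : ∀ j, Dep (E j) (D j)) (d : ℕ) (hd : 0 < d)
    (hdeg : ∀ j, (univ.filter fun j' => ¬ Disjoint (D j) (D j')).card ≤ d)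
    (hp : ∀ j, 4 * d * cnt (E j) ≤ tot ι β) : ∃ ω, ∀ j, ¬ E j ω := by
  have hT : 0 < tot ι β := Fintype.card_pos
  -- the number of points avoiding the events of `S`
  let N : Finset J → ℕ := fun S => cnt (fun ω => ∀ j ∈ S, ¬ E j ω)
  have hN0 : N ∅ = tot ι β := by
    show cnt _ = _
    rw [← cnt_true]
    congr 1
    funext ω
    simp
  have hins : ∀ (S : Finset J) (j : J),
      cnt (fun ω => E j ω ∧ ∀ i ∈ S, ¬ E i ω) + N (insert j S) = N S := by
    intro S j
    have h1 := cnt_split (E j) (fun ω => ∀ i ∈ S, ¬ E i ω)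
    have h2 : N (insert j S) = cnt (fun ω => ¬ E j ω ∧ ∀ i ∈ S, ¬ E i ω) := by
      show cnt _ = cnt _
      congr 1
      funext ω
      simp
    rw [h2]
    exact h1
  have main : ∀ n : ℕ, ∀ S : Finset J, S.card = n →
      0 < N S ∧ ∀ j, 2 * d * cnt (fun ω => E j ω ∧ ∀ i ∈ S, ¬ E i ω) ≤ N S := by
    intro n
    induction n using Nat.strong_induction_on with
    | _ n ih =>
    intro S hS
    have hpos : 0 < N S := by
      rcases S.eq_empty_or_nonempty with h | ⟨j, hj⟩
      · rw [h, hN0]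
        exact hT
      · have h1 : (S.erase j).card < n := by
          rw [← hS]
          exact Finset.card_erase_lt_of_mem hj
        obtain ⟨h2, h3⟩ := ih _ h1 (S.erase j) rfl
        have h4 := hins (S.erase j) j
        rw [Finset.insert_erase hj] at h4
        have h5 := h3 j
        have h6 : 2 * 1 * cnt (fun ω => E j ω ∧ ∀ i ∈ S.erase j, ¬ E i ω) ≤
            2 * d * cnt (fun ω => E j ω ∧ ∀ i ∈ S.erase j, ¬ E i ω) :=
          Nat.mul_le_mul_right _ (Nat.mul_le_mul_left _ hd)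
        omega
    refine ⟨hpos, fun j => ?_⟩
    let S1 := S.filter fun i => ¬ Disjoint (D j) (D i)
    let S2 := S.filter fun i => Disjoint (D j) (D i)
    have h1 : cnt (fun ω => E j ω ∧ ∀ i ∈ S, ¬ E i ω) ≤
        cnt (fun ω => E j ω ∧ ∀ i ∈ S2, ¬ E i ω) :=
      cnt_mono fun ω h => ⟨h.1, fun i hi => h.2 i (Finset.mem_filter.1 hi).1⟩
    have h2 : Dep (fun ω => ∀ i ∈ S2, ¬ E i ω) (⋃ i ∈ S2, D i) := by
      intro ω ω' h3 h4 i hi
      refine (hD i).not ω ω' (fun k hk => h3 k ?_) (h4 i hi)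
      simp only [Set.mem_iUnion]
      exact ⟨i, hi, hk⟩
    have h3 : Disjoint (D j) (⋃ i ∈ S2, D i) := by
      rw [Set.disjoint_left]
      intro k hk h4
      simp only [Set.mem_iUnion] at h4
      obtain ⟨i, hi, h4⟩ := h4
      exact Set.disjoint_left.1 (Finset.mem_filter.1 hi).2 hk h4
    have h4 := indep (hD j) h2 h3
    have h5 : 4 * d * cnt (fun ω => E j ω ∧ ∀ i ∈ S2, ¬ E i ω) ≤ N S2 := by
      have h6 : (4 * d * cnt (fun ω => E j ω ∧ ∀ i ∈ S2, ¬ E i ω)) * tot ι β ≤
          N S2 * tot ι β := by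
        calc (4 * d * cnt (fun ω => E j ω ∧ ∀ i ∈ S2, ¬ E i ω)) * tot ι β
            = 4 * d * cnt (E j) * N S2 := by
              rw [mul_assoc, h4]
              show _ = 4 * d * cnt (E j) * cnt _
              ring
          _ ≤ tot ι β * N S2 := Nat.mul_le_mul_right _ (hp j)
          _ = _ := by ring
      exact Nat.le_of_mul_le_mul_right h6 hT
    have h6 : N S2 ≤ 2 * N S := by
      rcases S1.eq_empty_or_nonempty with h7 | h7
      · have h8 : S2 = S := by
          apply Finset.filter_true_of_mem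
          intro i hi
          by_contra h9
          have : i ∈ S1 := Finset.mem_filter.2 ⟨hi, h9⟩
          rw [h7] at this
          simp at this
        rw [h8]
        omega
      · have h8 : S2.card < n := by
          rw [← hS]
          apply Finset.card_lt_card
          refine ⟨Finset.filter_subset _ _, fun h9 => ?_⟩
          obtain ⟨i, hi⟩ := h7
          obtain ⟨hi1, hi2⟩ := Finset.mem_filter.1 hi
          exact hi2 (Finset.mem_filter.1 (h9 hi1)).2
        obtain ⟨h9, h10⟩ := ih _ h8 S2 rfl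
        have h11 : N S2 ≤ N S + ∑ i ∈ S1, cnt (fun ω => E i ω ∧ ∀ k ∈ S2, ¬ E k ω) := by
          have h12 : N S2 ≤ cnt (fun ω => (∀ i ∈ S, ¬ E i ω) ∨
              ∃ i ∈ S1, E i ω ∧ ∀ k ∈ S2, ¬ E k ω) := by
            refine cnt_mono fun ω h => ?_
            by_cases h13 : ∀ i ∈ S, ¬ E i ω
            · exact Or.inl h13
            · right
              push Not at h13
              obtain ⟨i, hi, h14⟩ := h13
              refine ⟨i, ?_, h14, h⟩
              refine Finset.mem_filter.2 ⟨hi, fun h15 => ?_⟩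
              exact h i (Finset.mem_filter.2 ⟨hi, h15⟩) h14
          refine h12.trans ((cnt_or _ _).trans ?_)
          exact Nat.add_le_add_left (cnt_exists S1 _) _
        have h12 : 2 * d * ∑ i ∈ S1, cnt (fun ω => E i ω ∧ ∀ k ∈ S2, ¬ E k ω) ≤ d * N S2 := by
          rw [Finset.mul_sum]
          refine (Finset.sum_le_card_nsmul _ _ (N S2) fun i _ => h10 i).trans ?_
          rw [smul_eq_mul]
          refine Nat.mul_le_mul_right _ ?_
          refine le_trans (Finset.card_le_card ?_) (hdeg j)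
          intro i hi
          exact Finset.mem_filter.2 ⟨Finset.mem_univ _, (Finset.mem_filter.1 hi).2⟩
        have h13 : 2 * ∑ i ∈ S1, cnt (fun ω => E i ω ∧ ∀ k ∈ S2, ¬ E k ω) ≤ N S2 := by
          have : d * (2 * ∑ i ∈ S1, cnt (fun ω => E i ω ∧ ∀ k ∈ S2, ¬ E k ω)) ≤ d * N S2 := by
            calc _ = 2 * d * ∑ i ∈ S1, cnt (fun ω => E i ω ∧ ∀ k ∈ S2, ¬ E k ω) := by ring
              _ ≤ _ := h12
          exact Nat.le_of_mul_le_mul_left this hd
        omega
    have h7 : 2 * (2 * d * cnt (fun ω => E j ω ∧ ∀ i ∈ S, ¬ E i ω)) ≤ 2 * N S := by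
      calc _ = 4 * d * cnt (fun ω => E j ω ∧ ∀ i ∈ S, ¬ E i ω) := by ring
        _ ≤ 4 * d * cnt (fun ω => E j ω ∧ ∀ i ∈ S2, ¬ E i ω) := Nat.mul_le_mul_left _ h1
        _ ≤ N S2 := h5
        _ ≤ _ := h6
    omega
  obtain ⟨h1, -⟩ := main _ univ rfl
  obtain ⟨ω, hω⟩ := cnt_pos h1
  exact ⟨ω, fun j => hω j (Finset.mem_univ j)⟩

end Pool.Agent.JWG
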