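import Pool.Agent.JW.PC

/-!
# From signs to colourings
-/

set_option autoImplicit false

namespace Pool.Agent.JWG

open Function Pool.Agent.JW

/-- Signs on one side of a bipartite cubic graph with a 2-factor `F` (given by a permutation `σ`): if
two consecutive vertices of the side have the same sign `t`, then the next ones on both sides have the
other sign and the third neighbours of the three vertices between them have sign `t`.
Then there is a colouring with all monochromatic components of size at most four. -/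
theorem sign_col {V : Type*} (G : SimpleGraph V) (A : Set V)
    (hA : ∀ u v, G.Adj u v → (u ∈ A ↔ v ∉ A)) (F : SimpleGraph V) (hFG : F ≤ G)
    (σ : Equiv.Perm V) (hσ : ∀ y z, F.Adj y z ↔ z = σ y ∨ y = σ z) (m : V → V)
    (hm2 : ∀ v, ¬ F.Adj v (m v)) (hm3 : ∀ v u, G.Adj v u ↔ u = σ v ∨ u = σ.symm v ∨ u = m v)
    (s : V → Bool)
    (hs : ∀ v, s v = s (σ (σ v)) → s (m (σ v)) = s v ∧ s (m (σ (σ (σ v)))) = s v ∧
      s (m (σ.symm v)) = s v ∧ s (σ (σ (σ (σ v)))) ≠ s v ∧ s (σ.symm (σ.symm v)) ≠ s v) :
    ∃ c : Sym2 V → Bool, ∀ (b : Bool) (v : V), (compE G c b v).ncard ≤ 4 := by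
  classical
  let τ : V → V := fun v => σ.symm v
  have hστ : ∀ v, σ (τ v) = v := fun v => σ.apply_symm_apply v
  have hτσ : ∀ v, τ (σ v) = v := fun v => σ.symm_apply_apply v
  have hFs : ∀ v, F.Adj v (σ v) := fun v => (hσ _ _).2 (Or.inl rfl)
  have hFt : ∀ v, F.Adj v (τ v) := fun v => (hσ _ _).2 (Or.inr (hστ v).symm)
  have hFn : ∀ v w, F.Adj v w ↔ w = σ v ∨ w = τ v := by
    intro v w
    rw [hσ]
    constructor
    · rintro (h | h)
      · exact Or.inl h
      · right
        rw [h, hτσ]
    · rintro (h | h)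
      · exact Or.inl h
      · right
        rw [h, hστ]
  have hm1 : ∀ v, G.Adj v (m v) := fun v => (hm3 v _).2 (Or.inr (Or.inr rfl))
  have hmu : ∀ v w, G.Adj v w → ¬ F.Adj v w → w = m v := by
    intro v w h1 h2
    rcases (hm3 v w).1 h1 with h | h | h
    · exact absurd ((hFn v w).2 (Or.inl h)) h2
    · exact absurd ((hFn v w).2 (Or.inr h)) h2
    · exact h
  have hmm : ∀ v, m (m v) = v := fun v =>
    (hmu (m v) v (hm1 v).symm (fun h => hm2 v h.symm)).symm
  -- the rules in terms of a vertex outside the side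
  have r1 : ∀ b, s (τ b) = s (σ b) → s (m b) = s (σ b) := by
    intro b h
    have h1 := hs (τ b) (by rw [hστ]; exact h)
    rw [hστ] at h1
    rw [h1.1, h]
  have r2 : ∀ b, s (τ b) = s (σ b) → s (τ (τ (τ b))) ≠ s (τ b) := by
    intro b h
    exact (hs (τ b) (by rw [hστ]; exact h)).2.2.2.2
  have r3 : ∀ b, s (τ b) = s (σ b) → s (σ (σ (σ b))) ≠ s (σ b) := by
    intro b h
    have h1 := (hs (τ b) (by rw [hστ]; exact h)).2.2.2.1
    rw [hστ, h] at h1
    exact h1
  have r4 : ∀ v, s v = s (σ (σ v)) → s (m (τ v)) = s v := fun v h => (hs v h).2.2.1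
  have r5 : ∀ v, s v = s (σ (σ v)) → s (m (σ (σ (σ v)))) = s v := fun v h => (hs v h).2.1
  -- the first vertex of a run
  let rp : V → V := fun a => if s (τ (τ a)) = s a then τ (τ a) else a
  -- the colouring
  let c : Sym2 V → Bool := fun e =>
    decide (∃ a b, a ∈ A ∧ b ∉ A ∧ e = s(a, b) ∧ (if F.Adj a b then s a else !s a) = true)
  obtain ⟨fa, fb, hf⟩ : ∃ fa fb : Sym2 V → V, ∀ e, (∃ a b, a ∈ A ∧ b ∉ A ∧ e = s(a, b)) →
      fa e ∈ A ∧ fb e ∉ A ∧ e = s(fa e, fb e) := by
    have h : ∀ e : Sym2 V, ∃ a b, (∃ a b, a ∈ A ∧ b ∉ A ∧ e = s(a, b)) →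
        a ∈ A ∧ b ∉ A ∧ e = s(a, b) := by
      intro e
      by_cases h : ∃ a b, a ∈ A ∧ b ∉ A ∧ e = s(a, b)
      · obtain ⟨a, b, h⟩ := h
        exact ⟨a, b, fun _ => h⟩
      · exact ⟨e.out.1, e.out.1, fun h1 => absurd h1 h⟩
    choose fa fb h using h
    exact ⟨fa, fb, h⟩
  let lab : Sym2 V → V := fun e => if F.Adj (fa e) (fb e) then rp (fa e) else
    if s (τ (fb e)) = s (σ (fb e)) then fb e else
    if s (σ (fb e)) = !s (fa e) then rp (σ (fb e)) else rp (τ (fb e))
  have huniq : ∀ a b a' b', a ∈ A → b ∉ A → a' ∈ A → b' ∉ A → s(a, b) = s(a', b') →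
      a = a' ∧ b = b' := by
    intro a b a' b' ha hb ha' hb' h
    rcases Sym2.eq_iff.1 h with h1 | h1
    · exact h1
    · exact absurd (h1.1 ▸ ha) hb'
  have hc : ∀ a b, a ∈ A → b ∉ A → c s(a, b) = if F.Adj a b then s a else !s a := by
    intro a b ha hb
    rw [Bool.eq_iff_iff]
    simp only [c, decide_eq_true_eq]
    constructor
    · rintro ⟨a', b', ha', hb', h1, h2⟩
      obtain ⟨rfl, rfl⟩ := huniq a b a' b' ha hb ha' hb' h1
      exact h2
    · intro h
      exact ⟨a, b, ha, hb, rfl, h⟩
  have hl : ∀ a b, a ∈ A → b ∉ A → lab s(a, b) = if F.Adj a b then rp a else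
      if s (τ b) = s (σ b) then b else if s (σ b) = !s a then rp (σ b) else rp (τ b) := by
    intro a b ha hb
    obtain ⟨h1, h2, h3⟩ := hf s(a, b) ⟨a, b, ha, hb, rfl⟩
    obtain ⟨h4, h5⟩ := huniq a b _ _ ha hb h1 h2 h3
    simp only [lab]
    rw [← h4, ← h5]
  have hcF : ∀ a b, a ∈ A → b ∉ A → F.Adj a b → c s(a, b) = s a := by
    intro a b ha hb h
    rw [hc a b ha hb, if_pos h]
  have hcM : ∀ a b, a ∈ A → b ∉ A → ¬ F.Adj a b → c s(a, b) = !s a := by
    intro a b ha hb h
    rw [hc a b ha hb, if_neg h]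
  have hlF : ∀ a b, a ∈ A → b ∉ A → F.Adj a b → lab s(a, b) = rp a := by
    intro a b ha hb h
    rw [hl a b ha hb, if_pos h]
  have hlM : ∀ a b, a ∈ A → b ∉ A → ¬ F.Adj a b →
      lab s(a, b) = if s (τ b) = s (σ b) then b else
        if s (σ b) = !s a then rp (σ b) else rp (τ b) := by
    intro a b ha hb h
    rw [hl a b ha hb, if_neg h]
  -- edges at a vertex of `A`
  have key1 : ∀ x y z, x ∈ A → G.Adj x y → G.Adj x z → c s(x, y) = c s(x, z) →
      lab s(x, y) = lab s(x, z) := by
    intro x y z hx hy hz h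
    have hyA : y ∉ A := (hA x y hy).1 hx
    have hzA : z ∉ A := (hA x z hz).1 hx
    by_cases h1 : F.Adj x y <;> by_cases h2 : F.Adj x z
    · rw [hlF x y hx hyA h1, hlF x z hx hzA h2]
    · rw [hcF x y hx hyA h1, hcM x z hx hzA h2] at h
      simp at h
    · rw [hcM x y hx hyA h1, hcF x z hx hzA h2] at h
      simp at h
    · rw [hmu x y hy h1, hmu x z hz h2]
  -- the two F-edges at a vertex outside `A`
  have hrun : ∀ b, s (τ b) = s (σ b) → rp (τ b) = rp (σ b) := by
    intro b h
    have h1 : rp (σ b) = τ b := by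
      show (if s (τ (τ (σ b))) = s (σ b) then τ (τ (σ b)) else σ b) = τ b
      rw [hτσ, if_pos h]
    have h2 : rp (τ b) = τ b := by
      show (if s (τ (τ (τ b))) = s (τ b) then τ (τ (τ b)) else τ b) = τ b
      rw [if_neg (r2 b h)]
    rw [h1, h2]
  -- an F-edge and an M-edge at a vertex outside `A`
  have key3 : ∀ x y z, x ∉ A → y ∈ A → z ∈ A → F.Adj y x → ¬ F.Adj z x → G.Adj x z →
      c s(y, x) = c s(z, x) → lab s(y, x) = lab s(z, x) := by
    intro x y z hx hy hz h1 h2 h3 h
    rw [hcF y x hy hx h1, hcM z x hz hx h2] at h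
    rw [hlF y x hy hx h1, hlM z x hz hx h2]
    have hz' : z = m x := hmu x z h3 (fun h4 => h2 h4.symm)
    by_cases h4 : s (τ x) = s (σ x)
    · exfalso
      have h5 := r1 x h4
      rw [← hz'] at h5
      rcases (hFn x y).1 h1.symm with h6 | h6
      · rw [h6, h5] at h
        simp at h
      · rw [h6, h4, h5] at h
        simp at h
    · rw [if_neg h4]
      rcases (hFn x y).1 h1.symm with h5 | h5
      · rw [← h5, if_pos h]
      · have h6 : ¬ s (σ x) = !s z := by
          intro h7
          apply h4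
          rw [h7, ← h5, h]
        rw [if_neg h6, h5]
  have key2 : ∀ x y z, x ∉ A → G.Adj x y → G.Adj x z → c s(y, x) = c s(z, x) →
      lab s(y, x) = lab s(z, x) := by
    intro x y z hx hy hz h
    have hyA : y ∈ A := (hA y x hy.symm).2 hx
    have hzA : z ∈ A := (hA z x hz.symm).2 hx
    by_cases h1 : F.Adj y x <;> by_cases h2 : F.Adj z x
    · rw [hcF y x hyA hx h1, hcF z x hzA hx h2] at h
      rw [hlF y x hyA hx h1, hlF z x hzA hx h2]
      rcases (hFn x y).1 h1.symm with h5 | h5 <;> rcases (hFn x z).1 h2.symm with h6 | h6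
      · rw [h5, h6]
      · rw [h5, h6] at h ⊢
        exact (hrun x h.symm).symm
      · rw [h5, h6] at h ⊢
        exact hrun x h
      · rw [h5, h6]
    · exact key3 x y z hx hyA hzA h1 h2 hz h
    · exact (key3 x z y hx hzA hyA h2 h1 hy h.symm).symm
    · rw [hmu x y hy (fun h3 => h1 h3.symm), hmu x z hz (fun h3 => h2 h3.symm)]
  -- the lists
  let pc : Bool → V → List (Sym2 V) := fun _ v =>
    if v ∉ A then [s(v, m v)] else
    if s v = s (σ (σ v)) then [s(v, σ v), s(v, τ v), s(σ (σ v), σ v), s(σ (σ v), σ (σ (σ v)))] else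
    [s(v, σ v), s(v, τ v), s(σ v, m (σ v)), s(τ v, m (τ v))]
  have hσA : ∀ v, v ∈ A ↔ σ v ∉ A := fun v => hA _ _ (hFG (hFs v))
  have hτA : ∀ v, v ∈ A ↔ τ v ∉ A := fun v => hA _ _ (hFG (hFt v))
  refine ⟨c, fun b v => cert_list (lab := lab) ?_ pc ?_ ?_ b v⟩
  · intro x y z hy hz h
    by_cases hx : x ∈ A
    · exact key1 x y z hx hy hz h
    · rw [Sym2.eq_swap (a := x) (b := y), Sym2.eq_swap (a := x) (b := z)] at h ⊢
      exact key2 x y z hx hy hz h
  · intro b a
    simp only [pc]
    split_ifs <;> simp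
  · intro e he
    have key4 : ∀ a b, a ∈ A → b ∉ A → G.Adj a b → s(a, b) ∈ pc true (lab s(a, b)) := by
      intro a b ha hb hab
      by_cases h1 : F.Adj a b
      · rw [hlF a b ha hb h1]
        by_cases h2 : s (τ (τ a)) = s a
        · have h3 : rp a = τ (τ a) := if_pos h2
          have h4 : τ (τ a) ∈ A := by
            by_contra h5
            exact (hτA (τ a)).not.1 (fun h6 => (hτA a).1 ha h6) h5
          rw [h3]
          simp only [pc]
          rw [if_neg (not_not.2 h4), hστ, hστ, if_pos h2]
          rcases (hFn a b).1 h1 with h6 | h6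
          · rw [h6]
            simp
          · rw [h6]
            simp
        · have h3 : rp a = a := if_neg h2
          rw [h3]
          simp only [pc]
          rw [if_neg (not_not.2 ha)]
          rcases (hFn a b).1 h1 with h6 | h6
          · rw [h6]
            split_ifs <;> simp
          · rw [h6]
            split_ifs <;> simp
      · rw [hlM a b ha hb h1]
        have h2 : a = m b := hmu b a hab.symm (fun h => h1 h.symm)
        by_cases h3 : s (τ b) = s (σ b)
        · rw [if_pos h3]
          simp only [pc]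
          rw [if_pos hb, ← h2]
          simp [Sym2.eq_swap]
        · rw [if_neg h3]
          by_cases h4 : s (σ b) = !s a
          · rw [if_pos h4]
            have h5 : rp (σ b) = σ b := by
              show (if s (τ (τ (σ b))) = s (σ b) then τ (τ (σ b)) else σ b) = σ b
              rw [hτσ, if_neg h3]
            have h6 : σ b ∈ A := by
              by_contra h7
              exact h7 (by
                by_contra h8
                exact hb ((hσA b).2 h8))
            have h7 : ¬ s (σ b) = s (σ (σ (σ b))) := by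
              intro h8
              have h9 := r4 (σ b) h8
              rw [hτσ, ← h2, h4] at h9
              simp at h9
            rw [h5]
            simp only [pc]
            rw [if_neg (not_not.2 h6), if_neg h7, hτσ, ← h2]
            simp [Sym2.eq_swap]
          · rw [if_neg h4]
            have h4' : s (σ b) = s a := by
              revert h4
              cases s (σ b) <;> cases s a <;> simp
            have h5 : rp (τ b) = τ b := by
              show (if s (τ (τ (τ b))) = s (τ b) then τ (τ (τ b)) else τ b) = τ b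
              rw [if_neg]
              intro h8
              have h9 := r5 (τ (τ (τ b))) (by rw [hστ, hστ]; exact h8)
              rw [hστ, hστ, hστ, ← h2, h8] at h9
              exact h3 (h9.symm.trans h4'.symm)
            have h6 : τ b ∈ A := by
              by_contra h8
              exact hb ((hτA b).2 h8)
            have h7 : ¬ s (τ b) = s (σ (σ (τ b))) := by
              rw [hστ]
              exact h3
            rw [h5]
            simp only [pc]
            rw [if_neg (not_not.2 h6), if_neg h7, hστ, ← h2]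
            simp [Sym2.eq_swap]
    show e ∈ pc true (lab e)
    induction e with
    | _ x y =>
    have hxy : G.Adj x y := he
    by_cases hx : x ∈ A
    · exact key4 x y hx ((hA x y hxy).1 hx) hxy
    · have hy : y ∈ A := (hA y x hxy.symm).2 hx
      have h1 : s(x, y) = s(y, x) := Sym2.eq_swap
      rw [h1]
      exact key4 y x hy hx hxy.symm

end Pool.Agent.JWG
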