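import Pool.Agent.JWG.Exist
import Pool.Agent.JWG.SignCol

/-!
# Bipartite cubic graphs whose short cycles have at least three edges in a perfect matching
-/

set_option autoImplicit false

namespace Pool.Agent.JWG

open Function Pool.Agent.JW

section

variable {V : Type*}

/-- A closed walk of length less than `N` with at most two edges in `M`, in which some edge occurs only
once, cannot exist if all cycles of length less than `N` have at least three edges in `M`. -/
theorem no_short {G M : SimpleGraph V} {N : ℕ}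
    (hC : ∀ (v : V) (C : G.Walk v v), C.IsCycle → C.length < N →
      3 ≤ {e | e ∈ C.edges ∧ e ∈ M.edgeSet}.ncard)
    {u v : V} (huv : G.Adj u v) (w : G.Walk u v) (h1 : s(u, v) ∉ w.edges)
    (hlen : w.length + 1 < N) (x y : Sym2 V)
    (hxy : ∀ e, e = s(u, v) ∨ e ∈ w.edges → e ∈ M.edgeSet → e = x ∨ e = y) : False := by
  classical
  let H : SimpleGraph V := SimpleGraph.fromEdgeSet {e | e = s(u, v) ∨ e ∈ w.edges}
  have hHG : H ≤ G := by
    intro a b hab
    rw [SimpleGraph.fromEdgeSet_adj] at hab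
    rcases hab.1 with h2 | h2
    · have h3 : s(a, b) ∈ G.edgeSet := by
        rw [h2]
        exact huv
      exact h3
    · exact w.edges_subset_edgeSet h2
  have hwH : ∀ e ∈ w.edges, e ∈ H.edgeSet := by
    intro e he
    rw [SimpleGraph.edgeSet_fromEdgeSet]
    refine ⟨Or.inr he, ?_⟩
    exact G.not_isDiag_of_mem_edgeSet (w.edges_subset_edgeSet he)
  have hH : H.Adj u v := by
    rw [SimpleGraph.fromEdgeSet_adj]
    exact ⟨Or.inl rfl, huv.ne⟩
  obtain ⟨z, C, hCyc, -⟩ := SimpleGraph.adj_and_reachable_delete_edges_iff_exists_cycle.1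
    ⟨hH, SimpleGraph.reachable_deleteEdges_iff_exists_walk.2
      ⟨w.transfer H hwH, by rw [SimpleGraph.Walk.edges_transfer]; exact h1⟩⟩
  have hsub : ∀ e ∈ C.edges, e = s(u, v) ∨ e ∈ w.edges := by
    intro e he
    have h2 := C.edges_subset_edgeSet he
    rw [SimpleGraph.edgeSet_fromEdgeSet] at h2
    exact h2.1
  have hl : C.length < N := by
    have h2 : C.edges.Subperm (s(u, v) :: w.edges) := by
      refine List.subperm_of_subset hCyc.isCircuit.isTrail.edges_nodup fun e he => ?_
      rcases hsub e he with h3 | h3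
      · rw [h3]
        exact List.mem_cons_self
      · exact List.mem_cons_of_mem _ h3
    have h3 := h2.length_le
    rw [List.length_cons, SimpleGraph.Walk.length_edges, SimpleGraph.Walk.length_edges] at h3
    omega
  have h2 := hC z (C.mapLe hHG) (SimpleGraph.Walk.isCycle_mapLe hHG |>.2 hCyc)
    (by rw [SimpleGraph.Walk.length_mapLe]; exact hl)
  have h3 : {e | e ∈ (C.mapLe hHG).edges ∧ e ∈ M.edgeSet} ⊆ {x, y} := by
    rintro e ⟨he1, he2⟩
    rw [SimpleGraph.Walk.edges_mapLe_eq_edges] at he1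
    exact hxy e (hsub e he1) he2
  have h4 := Set.ncard_le_ncard h3 (Set.toFinite _)
  have h5 : ({x, y} : Set (Sym2 V)).ncard ≤ 2 :=
    (Set.ncard_insert_le x {y}).trans (by rw [Set.ncard_singleton])
  omega

/-- walks along a permutation -/
theorem perm_walk {G F : SimpleGraph V} (hFG : F ≤ G) (σ : Equiv.Perm V)
    (hF : ∀ v, F.Adj v (σ v)) (n : ℕ) (v : V) :
    ∃ w : G.Walk v ((σ ^ n) v), w.length = n ∧
      ∀ e ∈ w.edges, ∃ i < n, e = s((σ ^ i) v, (σ ^ (i + 1)) v) := by
  induction n with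
  | zero =>
    have h0 : v = (σ ^ 0) v := by simp
    refine ⟨SimpleGraph.Walk.nil.copy rfl h0, ?_, fun e he => ?_⟩
    · rw [SimpleGraph.Walk.length_copy]
      rfl
    · rw [SimpleGraph.Walk.edges_copy, SimpleGraph.Walk.edges_nil] at he
      exact absurd he List.not_mem_nil
  | succ n ih =>
    obtain ⟨w, h1, h2⟩ := ih
    have h3 : G.Adj ((σ ^ n) v) ((σ ^ (n + 1)) v) := by
      have h4 : (σ ^ (n + 1)) v = σ ((σ ^ n) v) := by
        rw [pow_succ', Equiv.Perm.mul_apply]
      rw [h4]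
      exact hFG (hF _)
    refine ⟨w.concat h3, ?_, fun e he => ?_⟩
    · rw [SimpleGraph.Walk.length_concat, h1]
    · rw [SimpleGraph.Walk.edges_concat, List.concat_eq_append, List.mem_append,
        List.mem_singleton] at he
      rcases he with he | he
      · obtain ⟨i, hi, h4⟩ := h2 e he
        exact ⟨i, by omega, h4⟩
      · exact ⟨n, by omega, he⟩

theorem perm_walk' {G F : SimpleGraph V} (hFG : F ≤ G) (σ : Equiv.Perm V)
    (hF : ∀ v, F.Adj v (σ v)) (n : ℕ) (u v : V) (h : (σ ^ n) u = v) :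
    ∃ w : G.Walk u v, w.length = n ∧ ∀ e ∈ w.edges, e ∈ F.edgeSet := by
  obtain ⟨w, h1, h2⟩ := perm_walk hFG σ hF n u
  subst h
  refine ⟨w, h1, fun e he => ?_⟩
  obtain ⟨i, -, h3⟩ := h2 e he
  rw [h3, pow_succ', Equiv.Perm.mul_apply]
  exact hF _

end

theorem numeric (T : ℕ) (hT : T = 64 * 36) :
    16 * ((2 * 6916 + 1) * (8 * 13832) * 2) * 63 ^ T ≤ 64 ^ T := by
  rw [hT, pow_mul, pow_mul]
  have h1 : 2 * 63 ^ 64 ≤ 64 ^ 64 := by norm_num
  obtain ⟨x, hx⟩ : ∃ x, x = 63 ^ 64 := ⟨_, rfl⟩
  obtain ⟨y, hy⟩ : ∃ y, y = 64 ^ 64 := ⟨_, rfl⟩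
  rw [← hx, ← hy] at h1 ⊢
  have h2 : (2 * x) ^ 36 ≤ y ^ 36 := Nat.pow_le_pow_left h1 36
  rw [mul_pow] at h2
  have h3 : 16 * ((2 * 6916 + 1) * (8 * 13832) * 2) ≤ 2 ^ 36 := by norm_num
  exact (Nat.mul_le_mul_right _ h3).trans h2

/-- Let `G` be a bipartite cubic graph with a perfect matching `M` such that every cycle with fewer than
140000 edges has at least three edges in `M`. Then `G` has a 2-edge-colouring with all monochromatic
components of size at most four. -/
theorem longCycles {V : Type*} [Fintype V] [DecidableEq V] (G : SimpleGraph V)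
    [DecidableRel G.Adj] (hreg : G.IsRegularOfDegree 3) (hbip : G.IsBipartite) (M : SimpleGraph V)
    (hMG : M ≤ G) (hM : ∀ v, ∃! w, M.Adj v w)
    (hC : ∀ (v : V) (C : G.Walk v v), C.IsCycle → C.length < 140000 →
      3 ≤ {e | e ∈ C.edges ∧ e ∈ M.edgeSet}.ncard) :
    ∃ c : Sym2 V → Bool, ∀ (b : Bool) (v : V), (compE G c b v).ncard ≤ 4 := by
  classical
  obtain ⟨col⟩ := hbip
  let A : Set V := {v | col v = 0}
  have hA : ∀ u v, G.Adj u v → (u ∈ A ↔ v ∉ A) := by
    intro u v h
    have h1 := col.valid h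
    show col u = 0 ↔ ¬ col v = 0
    omega
  -- the matching
  choose m hm hmuniq using hM
  have hmm : ∀ v, m (m v) = v := fun v => ((hmuniq (m v)) v (hm v).symm).symm
  -- the 2-factor
  let F : SimpleGraph V := G \ M
  have hFG : F ≤ G := sdiff_le
  have hFadj : ∀ v w, F.Adj v w ↔ G.Adj v w ∧ ¬ M.Adj v w := fun v w => by
    rw [SimpleGraph.sdiff_adj]
  obtain ⟨σ, hσ, hσ2⟩ := two_regular_perm F (by
    intro v
    obtain ⟨b, c, h1, h2, h3, h4⟩ := cubic_nbrs_of hreg (hMG (hm v))
    refine ⟨b, c, h3, fun w => ?_⟩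
    rw [hFadj, h4]
    constructor
    · rintro ⟨h5 | h5 | h5, h6⟩
      · rw [h5] at h6
        exact absurd (hm v) h6
      · exact Or.inl h5
      · exact Or.inr h5
    · rintro (h5 | h5)
      · refine ⟨Or.inr (Or.inl h5), fun h6 => ?_⟩
        exact h1 ((hmuniq v w h6).symm.trans h5)
      · refine ⟨Or.inr (Or.inr h5), fun h6 => ?_⟩
        exact h2 ((hmuniq v w h6).symm.trans h5))
  have hFs : ∀ v, F.Adj v (σ v) := fun v => (hσ _ _).2 (Or.inl rfl)
  have hm2 : ∀ v, ¬ F.Adj v (m v) := fun v h => ((hFadj _ _).1 h).2 (hm v)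
  have hm3 : ∀ v u, G.Adj v u ↔ u = σ v ∨ u = σ.symm v ∨ u = m v := by
    intro v u
    constructor
    · intro h
      by_cases h1 : M.Adj v u
      · exact Or.inr (Or.inr (hmuniq v u h1))
      · rcases (hσ v u).1 ((hFadj v u).2 ⟨h, h1⟩) with h2 | h2
        · exact Or.inl h2
        · right; left
          rw [h2, σ.symm_apply_apply]
    · rintro (h | h | h)
      · exact hFG ((hσ v u).2 (Or.inl h))
      · refine hFG ((hσ v u).2 (Or.inr ?_))
        rw [h, σ.apply_symm_apply]
      · rw [h]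
        exact hMG (hm v)
  let mp : Equiv.Perm V := Function.Involutive.toPerm m hmm
  have hmp : ∀ v, mp v = m v := fun _ => rfl
  have hFM : ∀ e, e ∈ F.edgeSet → e ∉ M.edgeSet := by
    intro e
    induction e with
    | _ a b =>
    intro h1 h2
    exact ((hFadj a b).1 h1).2 h2
  -- the cycles of the 2-factor are long
  have hlong : ∀ v k, 0 < k → k < 27664 → (σ ^ k) v ≠ v := by
    intro v k hk1 hk2 hk3
    have hex : ∃ j, 0 < j ∧ (σ ^ j) v = v := ⟨k, hk1, hk3⟩
    obtain ⟨h1, h2⟩ := Nat.find_spec hex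
    have hmin : ∀ j, 0 < j → (σ ^ j) v = v → Nat.find hex ≤ j := fun j h3 h4 =>
      Nat.find_min' hex ⟨h3, h4⟩
    have hle := hmin k hk1 hk3
    obtain ⟨n, hn⟩ : ∃ n, n = Nat.find hex := ⟨_, rfl⟩
    rw [← hn] at h1 h2 hmin hle
    have hs : ∀ i, (σ ^ i) (σ v) = (σ ^ (i + 1)) v := fun i => by
      rw [pow_succ, Equiv.Perm.mul_apply]
    obtain ⟨w, hw1, hw2⟩ := perm_walk hFG σ hFs (n - 1) (σ v)
    have hend : (σ ^ (n - 1)) (σ v) = v := by
      rw [hs, Nat.sub_add_cancel h1, h2]
    refine no_short hC (hFG (hFs v).symm) (w.copy rfl hend) ?_ ?_ s(v, v) s(v, v) ?_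
    · rw [SimpleGraph.Walk.edges_copy]
      intro h3
      obtain ⟨i, hi, h4⟩ := hw2 _ h3
      rw [hs, hs, Sym2.eq_iff] at h4
      rcases h4 with ⟨h5, h6⟩ | ⟨h5, h6⟩
      · have h7 := hmin (i + 2) (by omega) h6.symm
        have h8 : i + 2 = n := by omega
        -- then `σ v = σ ^ (i + 1) v`
        have h9 : (σ ^ i) v = v := by
          have h10 : σ ((σ ^ i) v) = σ v := by
            rw [← Equiv.Perm.mul_apply, ← pow_succ', ← h5]
          exact σ.injective h10
        rcases Nat.eq_zero_or_pos i with h10 | h10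
        · subst h10
          apply hσ2 v
          have h11 : (σ ^ 2) v = v := h6.symm
          rwa [pow_two, Equiv.Perm.mul_apply] at h11
        · have := hmin i h10 h9
          omega
      · have := hmin (i + 1) (by omega) h6.symm
        omega
    · rw [SimpleGraph.Walk.length_copy, hw1]
      omega
    · intro e he1 he2
      exfalso
      refine hFM e ?_ he2
      rcases he1 with h3 | h3
      · rw [h3]
        exact (hFs v).symm
      · rw [SimpleGraph.Walk.edges_copy] at h3
        obtain ⟨i, hi, h4⟩ := hw2 _ h3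
        rw [h4, pow_succ', Equiv.Perm.mul_apply]
        exact hFs _
  have hpow : ∀ k v, ((σ * σ) ^ k) v = (σ ^ (2 * k)) v := by
    intro k v
    rw [pow_mul, pow_two]
  -- sides
  have hside : ∀ k v, (σ ^ (2 * k)) v ∈ A ↔ v ∈ A := by
    intro k v
    induction k with
    | zero => simp
    | succ k ih =>
      have h1 : (σ ^ (2 * (k + 1))) v = σ (σ ((σ ^ (2 * k)) v)) := by
        rw [show 2 * (k + 1) = (2 * k + 1) + 1 from by ring, pow_succ', Equiv.Perm.mul_apply,
          pow_succ', Equiv.Perm.mul_apply]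
      rw [h1, ← ih]
      have h2 := hA _ _ (hFG (hFs ((σ ^ (2 * k)) v)))
      have h3 := hA _ _ (hFG (hFs (σ ((σ ^ (2 * k)) v))))
      tauto
  -- no two edges of the matching join the same two short pieces
  have hfar0 : ∀ b j k (b' : V), 0 < j → j < 13832 → k < 55328 → (σ ^ (2 * j)) b = b' →
      ((σ ^ (2 * k)) (m b) = m b' ∨ (σ ^ (2 * k)) (m b') = m b) → False := by
    intro b j k b' hj1 hj2 hk hb' hor
    obtain ⟨w1, h1, h2⟩ := perm_walk' hFG σ hFs (2 * j) b b' hb'
    obtain ⟨w2, h3, h4⟩ : ∃ w : G.Walk (m b') (m b), w.length = 2 * k ∧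
        ∀ e ∈ w.edges, e ∈ F.edgeSet := by
      rcases hor with h | h
      · obtain ⟨w, h3, h4⟩ := perm_walk' hFG σ hFs (2 * k) _ _ h
        refine ⟨w.reverse, ?_, ?_⟩
        · rw [SimpleGraph.Walk.length_reverse, h3]
        · intro e he
          rw [SimpleGraph.Walk.edges_reverse, List.mem_reverse] at he
          exact h4 e he
      · exact perm_walk' hFG σ hFs (2 * k) _ _ h
    have hbb : b ≠ b' := by
      intro h
      refine hlong b (2 * j) (by omega) (by omega) ?_
      rw [hb', h]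
    have hbm : b ≠ m b' := by
      intro h
      have h5 := hside j b
      rw [hb'] at h5
      have h6 := hA _ _ (hMG (hm b'))
      rw [← h] at h6
      tauto
    let w : G.Walk b (m b) := w1.append (SimpleGraph.Walk.cons (hMG (hm b')) w2)
    have hw : w.edges = w1.edges ++ (s(b', m b') :: w2.edges) := by
      rw [SimpleGraph.Walk.edges_append, SimpleGraph.Walk.edges_cons]
    have hne : s(b, m b) ≠ s(b', m b') := by
      intro h
      rcases Sym2.eq_iff.1 h with h5 | h5
      · exact hbb h5.1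
      · exact hbm h5.1
    refine no_short hC (hMG (hm b)) w ?_ ?_ s(b, m b) s(b', m b') ?_
    · rw [hw, List.mem_append, List.mem_cons]
      rintro (h5 | h5 | h5)
      · exact hFM _ (h2 _ h5) (hm b)
      · exact hne h5
      · exact hFM _ (h4 _ h5) (hm b)
    · have h5 : w.length = w1.length + (w2.length + 1) := by
        rw [SimpleGraph.Walk.length_append, SimpleGraph.Walk.length_cons]
      omega
    · intro e he1 he2
      rw [hw, List.mem_append, List.mem_cons] at he1
      rcases he1 with h5 | h5 | h5 | h5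
      · exact Or.inl h5
      · exact absurd he2 (hFM _ (h2 _ h5))
      · exact Or.inr h5
      · exact absurd he2 (hFM _ (h4 _ h5))
  have hfar : Far (σ * σ) (mp * σ) (2 * 6916) (4 * 13832) := by
    intro v j k hj1 hj2 hk
    have h1 : ∀ u, (mp * σ) u = m (σ u) := fun u => by
      rw [Equiv.Perm.mul_apply, hmp]
    have h2 : σ (((σ * σ) ^ j) v) = (σ ^ (2 * j)) (σ v) := by
      rw [hpow, ← Equiv.Perm.mul_apply, ← Equiv.Perm.mul_apply, ← pow_succ', ← pow_succ]
    rw [h1, h1, h2, hpow, hpow]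
    refine ⟨fun h => ?_, fun h => ?_⟩
    · exact hfar0 (σ v) j k _ hj1 (by omega) (by omega) rfl (Or.inl h.symm)
    · exact hfar0 (σ v) j k _ hj1 (by omega) (by omega) rfl (Or.inr h.symm)
  have h0 : ∀ v k, 0 < k → k < 13832 → ((σ * σ) ^ k) v ≠ v := by
    intro v k hk1 hk2
    rw [hpow]
    exact hlong v (2 * k) (by omega) (by omega)
  obtain ⟨s, hs⟩ := exists_signs (σ * σ) (mp * σ) (T := 2304) (W := 6916) (L := 13832) rfl rfl
    (numeric 2304 (by norm_num)) h0 hfar
  refine sign_col G A hA F hFG σ hσ m hm2 hm3 s fun v hv => ?_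
  have h1 := hs v hv
  have h2 : ∀ u, (mp * σ) u = m (σ u) := fun u => by
    rw [Equiv.Perm.mul_apply, hmp]
  have h3 : (σ * σ)⁻¹ v = σ.symm (σ.symm v) := by
    rw [Equiv.Perm.inv_eq_iff_eq, Equiv.Perm.mul_apply, σ.apply_symm_apply, σ.apply_symm_apply]
  rw [h2, h2, h2, h3, σ.apply_symm_apply] at h1
  exact h1

end Pool.Agent.JWG
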