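import Pool.Agent.JWG.LLL

/-!
# Markers on the cycles of a permutation
-/

set_option autoImplicit false

namespace Pool.Agent.JWG

open Finset Classical

variable {V : Type*}

/-- a set of markers: two markers on the same cycle have distance at least `L`, and every element has a
marker less than `2 * L` steps behind it -/
structure Mrk (σ : Equiv.Perm V) (L : ℕ) where
  S : Set V
  sep : ∀ v ∈ S, ∀ k, 0 < k → k < L → (σ ^ k) v ∉ S
  dense : ∀ v, ∃ k, k < 2 * L ∧ (σ ^ k)⁻¹ v ∈ S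

theorem exists_markers [Fintype V] (σ : Equiv.Perm V) (L : ℕ) (hL : 0 < L)
    (h0 : ∀ v k, 0 < k → k < L → (σ ^ k) v ≠ v) : Nonempty (Mrk σ L) := by
  let P : Finset V → Prop := fun S => ∀ v ∈ S, ∀ k, 0 < k → k < L → (σ ^ k) v ∉ S
  have hne : (univ.filter P : Finset (Finset V)).Nonempty :=
    ⟨∅, Finset.mem_filter.2 ⟨Finset.mem_univ _, fun v hv => absurd hv (Finset.notMem_empty v)⟩⟩
  obtain ⟨S, hS, hmax⟩ := Finset.exists_max_image _ Finset.card hne
  have hS1 : P S := (Finset.mem_filter.1 hS).2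
  refine ⟨⟨(S : Set V), fun v hv k h1 h2 h3 => hS1 v hv k h1 h2 h3, fun v => ?_⟩⟩
  by_contra hcon
  push Not at hcon
  let w : V := (σ ^ L)⁻¹ v
  have hw : ∀ k, k < 2 * L → (σ ^ k)⁻¹ v ∉ S := fun k hk h => hcon k hk h
  have h1 : w ∉ S := hw L (by omega)
  have h2 : ∀ k, k < L → (σ ^ k) w = (σ ^ (L - k))⁻¹ v := by
    intro k hk
    rw [Equiv.Perm.eq_inv_iff_eq]
    show (σ ^ (L - k)) ((σ ^ k) w) = v
    rw [← Equiv.Perm.mul_apply, ← pow_add, Nat.sub_add_cancel hk.le]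
    simp [w]
  have h3 : P (insert w S) := by
    intro u hu k hk1 hk2 hk3
    rcases Finset.mem_insert.1 hu with rfl | hu
    · rcases Finset.mem_insert.1 hk3 with h4 | h4
      · exact h0 _ k hk1 hk2 h4
      · rw [h2 k hk2] at h4
        exact hw _ (by omega) h4
    · rcases Finset.mem_insert.1 hk3 with h4 | h4
      · have h5 : (σ ^ (L + k))⁻¹ v = u := by
          rw [Equiv.Perm.inv_eq_iff_eq, pow_add, Equiv.Perm.mul_apply, h4]
          simp [w]
        exact hw (L + k) (by omega) (h5 ▸ hu)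
      · exact hS1 u hu k hk1 hk2 h4
  have h4 := hmax (insert w S) (Finset.mem_filter.2 ⟨Finset.mem_univ _, h3⟩)
  rw [Finset.card_insert_of_notMem h1] at h4
  omega

namespace Mrk

variable {σ : Equiv.Perm V} {L : ℕ} (K : Mrk σ L)

theorem ex (v : V) : ∃ k, (σ ^ k)⁻¹ v ∈ K.S := by
  obtain ⟨k, -, hk⟩ := K.dense v
  exact ⟨k, hk⟩

/-- the distance to the last marker -/
noncomputable def idx (v : V) : ℕ := Nat.find (K.ex v)

/-- the last marker -/
noncomputable def lst (v : V) : V := (σ ^ K.idx v)⁻¹ v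

theorem lst_mem (v : V) : K.lst v ∈ K.S := Nat.find_spec (K.ex v)

theorem idx_lt (v : V) : K.idx v < 2 * L := by
  obtain ⟨k, hk, h⟩ := K.dense v
  exact lt_of_le_of_lt (Nat.find_min' (K.ex v) h) hk

theorem it (v : V) : (σ ^ K.idx v) (K.lst v) = v := by simp [lst]

theorem idx_of (v : V) (k : ℕ) (h : (σ ^ k)⁻¹ v ∈ K.S) (h' : ∀ j < k, (σ ^ j)⁻¹ v ∉ K.S) :
    K.idx v = k := (Nat.find_eq_iff (K.ex v)).2 ⟨h, h'⟩

theorem idx_mem {m : V} (hm : m ∈ K.S) (k : ℕ) (hk : k < L) : K.idx ((σ ^ k) m) = k := by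
  refine K.idx_of _ _ (by simpa using hm) fun j hj => ?_
  have h1 : (σ ^ j)⁻¹ ((σ ^ k) m) = (σ ^ (k - j)) m := by
    rw [Equiv.Perm.inv_eq_iff_eq, ← Equiv.Perm.mul_apply, ← pow_add, Nat.add_sub_cancel' hj.le]
  rw [h1]
  exact K.sep m hm _ (by omega) (by omega)

theorem lst_of {m : V} (hm : m ∈ K.S) (k : ℕ) (hk : k < L) : K.lst ((σ ^ k) m) = m := by
  unfold lst
  rw [K.idx_mem hm k hk]
  simp

theorem idx_marker (hL : 0 < L) {m : V} (hm : m ∈ K.S) : K.idx m = 0 := by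
  have := K.idx_mem hm 0 hL
  simpa using this

theorem lst_marker (hL : 0 < L) {m : V} (hm : m ∈ K.S) : K.lst m = m := by
  have := K.lst_of hm 0 hL
  simpa using this

theorem step {v : V} (h : σ v ∉ K.S) : K.idx (σ v) = K.idx v + 1 ∧ K.lst (σ v) = K.lst v := by
  have h1 : ∀ k, (σ ^ (k + 1))⁻¹ (σ v) = (σ ^ k)⁻¹ v := by
    intro k
    rw [Equiv.Perm.inv_eq_iff_eq, pow_succ', Equiv.Perm.mul_apply]
    simp
  have h2 : K.idx (σ v) = K.idx v + 1 := by
    refine K.idx_of _ _ ?_ fun j hj => ?_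
    · rw [h1]
      exact K.lst_mem v
    · rcases Nat.eq_zero_or_pos j with rfl | h3
      · simpa using h
      · obtain ⟨i, rfl⟩ := Nat.exists_eq_succ_of_ne_zero h3.ne'
        rw [Nat.succ_eq_add_one, h1]
        exact Nat.find_min (K.ex v) (by unfold idx at hj; omega)
  refine ⟨h2, ?_⟩
  show (σ ^ K.idx (σ v))⁻¹ (σ v) = (σ ^ K.idx v)⁻¹ v
  rw [h2, h1]

theorem le_idx {v : V} (h : σ v ∈ K.S) : L ≤ K.idx v + 1 := by
  by_contra h1
  refine K.sep _ (K.lst_mem v) (K.idx v + 1) (by omega) (by omega) ?_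
  rw [pow_succ', Equiv.Perm.mul_apply, K.it]
  exact h

/-- the marker before a marker -/
noncomputable def pm (m : V) : V := K.lst (σ⁻¹ m)

/-- the distance to the marker before a marker -/
noncomputable def len (m : V) : ℕ := K.idx (σ⁻¹ m) + 1

theorem len_le (m : V) : K.len m ≤ 2 * L := K.idx_lt _

theorem it_pm (m : V) : (σ ^ K.len m) (K.pm m) = m := by
  unfold len pm
  rw [pow_succ', Equiv.Perm.mul_apply, K.it]
  simp

/-- the markers which matter for `q` -/
def B (q : V) : Set V := {u | u = K.lst q ∨ u = K.pm (K.lst q)}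

theorem near {q u : V} (h : u ∈ K.B q) : ∃ k, k < 4 * L ∧ (σ ^ k) u = q := by
  have h1 := K.idx_lt q
  rcases h with rfl | rfl
  · exact ⟨K.idx q, by omega, K.it q⟩
  · refine ⟨K.idx q + K.len (K.lst q), by have := K.len_le (K.lst q); omega, ?_⟩
    rw [pow_add, Equiv.Perm.mul_apply, K.it_pm, K.it]

end Mrk

end Pool.Agent.JWG
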