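import Pool.Agent.JWG.Mark

/-!
# Signs with few, well placed repetitions
-/

set_option autoImplicit false

namespace Pool.Agent.JWG

open Finset Classical

section count

variable {ι β : Type*} [Fintype ι] [Fintype β]

theorem cnt_invol (P : (ι → β) → Prop) (g : (ι → β) → (ι → β)) (hg : ∀ ω, g (g ω) = ω) :
    cnt (fun ω => P (g ω)) = cnt P := by
  unfold cnt
  refine Finset.card_nbij' g g ?_ ?_ ?_ ?_
  · intro ω h
    simpa using h
  · intro ω h
    simp only [Finset.coe_filter, Finset.mem_univ, true_and, Set.mem_ofPred_eq] at h ⊢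
    rw [hg]
    exact h
  · intro ω _
    exact hg ω
  · intro ω _
    exact hg ω

theorem three {P1 P2 P3 : (ι → β) → Prop} {D1 D2 D3 : Set ι} (h1 : Dep P1 D1) (h2 : Dep P2 D2)
    (h3 : Dep P3 D3) (d12 : Disjoint D1 D2) (d13 : Disjoint D1 D3) (d23 : Disjoint D2 D3)
    (c1 : tot ι β ≤ 4 * cnt P1) (c2 : tot ι β ≤ 4 * cnt P2) (c3 : tot ι β ≤ 4 * cnt P3) :
    tot ι β ≤ 64 * cnt (fun ω => P1 ω ∧ P2 ω ∧ P3 ω) := by
  rcases Nat.eq_zero_or_pos (tot ι β) with h0 | h0
  · rw [h0]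
    exact Nat.zero_le _
  have i1 := indep h2 h3 d23
  have h23 : Dep (fun ω => P2 ω ∧ P3 ω) (D2 ∪ D3) :=
    (h2.mono Set.subset_union_left).and (h3.mono Set.subset_union_right)
  have i2 := indep h1 h23 (Set.disjoint_union_right.2 ⟨d12, d13⟩)
  have e1 : tot ι β * (tot ι β * tot ι β) ≤
      (64 * cnt (fun ω => P1 ω ∧ P2 ω ∧ P3 ω)) * (tot ι β * tot ι β) := by
    calc tot ι β * (tot ι β * tot ι β)
        ≤ (4 * cnt P1) * ((4 * cnt P2) * (4 * cnt P3)) :=
          Nat.mul_le_mul c1 (Nat.mul_le_mul c2 c3)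
      _ = 64 * (cnt P1 * (cnt P2 * cnt P3)) := by ring
      _ = 64 * (cnt P1 * (cnt (fun ω => P2 ω ∧ P3 ω) * tot ι β)) := by rw [i1]
      _ = 64 * ((cnt P1 * cnt (fun ω => P2 ω ∧ P3 ω)) * tot ι β) := by ring
      _ = 64 * ((cnt (fun ω => P1 ω ∧ P2 ω ∧ P3 ω) * tot ι β) * tot ι β) := by rw [i2]
      _ = _ := by ring
  exact Nat.le_of_mul_le_mul_right e1 (Nat.mul_pos h0 h0)

theorem compl_bound {P : (ι → β) → Prop} (h : tot ι β ≤ 64 * cnt P) :
    64 * cnt (fun ω => ¬ P ω) ≤ 63 * tot ι β := by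
  have h1 := cnt_split P (fun _ => True)
  rw [cnt_true] at h1
  have h2 : cnt (fun ω => P ω ∧ True) = cnt P := by
    congr 1
    funext ω
    simp
  have h3 : cnt (fun ω => ¬ P ω ∧ True) = cnt (fun ω => ¬ P ω) := by
    congr 1
    funext ω
    simp
  omega

end count

variable {V : Type*} {σ : Equiv.Perm V} {L : ℕ} (K : Mrk σ L) (W : ℕ)

/-- the configurations: a zone and a phase for every marker -/
abbrev Conf (V : Type*) := V → Bool × Bool

/-- the zone chosen at a marker -/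
def zz (ω : Conf V) (m : V) : ℕ := if (ω m).1 then 1 else 0

/-- the phase in front of the cut -/
noncomputable def lam (ω : Conf V) (m : V) : Bool :=
  xor (ω (K.pm m)).2 (Nat.bodd (K.len m))

/-- the sign of an element outside the zones -/
noncomputable def sg (ω : Conf V) (v : V) : Bool :=
  if K.idx v / W < zz ω (K.lst v) then xor (lam K ω (K.lst v)) (Nat.bodd (K.idx v))
  else xor (ω (K.lst v)).2 (Nat.bodd (K.idx v))

/-- `q` lies outside the zones and has sign `b` -/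
def Good (q : V) (b : Bool) (ω : Conf V) : Prop :=
  K.idx q / W ≠ zz ω (K.lst q) ∧ sg K W ω q = b

theorem good_dep (q : V) (b : Bool) : Dep (Good K W q b) (K.B q) := by
  intro ω ω' h h1
  have h2 : ω (K.lst q) = ω' (K.lst q) := h _ (Or.inl rfl)
  have h3 : ω (K.pm (K.lst q)) = ω' (K.pm (K.lst q)) := h _ (Or.inr rfl)
  unfold Good sg zz lam at h1 ⊢
  rw [← h2, ← h3]
  exact h1

/-- change the zone at `m` -/
noncomputable def fz (m : V) (ω : Conf V) : Conf V :=
  fun u => if u = m then (!(ω u).1, (ω u).2) else ω u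

/-- change the phases of `m` and `m'` -/
noncomputable def fx (m m' : V) (ω : Conf V) : Conf V :=
  fun u => if u = m ∨ u = m' then ((ω u).1, !(ω u).2) else ω u

theorem fz_fz (m : V) (ω : Conf V) : fz m (fz m ω) = ω := by
  funext u
  unfold fz
  by_cases h : u = m
  · simp [h]
  · simp [h]

theorem fx_fx (m m' : V) (ω : Conf V) : fx m m' (fx m m' ω) = ω := by
  funext u
  unfold fx
  by_cases h : u = m ∨ u = m'
  · simp [h]
  · simp [h]

theorem good_or (q : V) (b : Bool) (ω : Conf V)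
    (h : K.idx q / W ≠ zz ω (K.lst q)) :
    Good K W q b ω ∨ Good K W q b (fx (K.lst q) (K.pm (K.lst q)) ω) := by
  have h1 : zz (fx (K.lst q) (K.pm (K.lst q)) ω) (K.lst q) = zz ω (K.lst q) := by
    unfold zz fx
    simp
  have h2 : sg K W (fx (K.lst q) (K.pm (K.lst q)) ω) q = !sg K W ω q := by
    unfold sg
    rw [h1]
    split_ifs with h3
    · unfold lam fx
      simp
    · unfold fx
      simp
  by_cases h3 : sg K W ω q = b
  · exact Or.inl ⟨h, h3⟩
  · right
    refine ⟨by rw [h1]; exact h, ?_⟩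
    rw [h2]
    cases hb : b <;> cases hs : sg K W ω q <;> simp_all

theorem good_cnt [Fintype V] (q : V) (b : Bool) : tot V (Bool × Bool) ≤ 4 * cnt (Good K W q b) := by
  have key : ∀ ω : Conf V, K.idx q / W ≠ zz ω (K.lst q) ∨
      K.idx q / W ≠ zz (fz (K.lst q) ω) (K.lst q) := by
    intro ω
    by_contra h
    push Not at h
    obtain ⟨h1, h2⟩ := h
    have h4 : zz ω (K.lst q) ≠ zz (fz (K.lst q) ω) (K.lst q) := by
      unfold zz fz
      cases (ω (K.lst q)).1 <;> simp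
    exact h4 (h1.symm.trans h2)
  obtain ⟨g1, hg1⟩ : ∃ g, g = fz (V := V) (K.lst q) := ⟨_, rfl⟩
  obtain ⟨g2, hg2⟩ : ∃ g, g = fx (V := V) (K.lst q) (K.pm (K.lst q)) := ⟨_, rfl⟩
  have i1 : ∀ ω, g1 (g1 ω) = ω := by
    rw [hg1]
    exact fz_fz _
  have i2 : ∀ ω, g2 (g2 ω) = ω := by
    rw [hg2]
    exact fx_fx _ _
  have h1 : cnt (fun ω => Good K W q b (g2 ω)) = cnt (Good K W q b) := cnt_invol _ g2 i2
  have h2 : cnt (fun ω => Good K W q b (g1 ω)) = cnt (Good K W q b) := cnt_invol _ g1 i1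
  have h3 : cnt (fun ω => Good K W q b (g2 (g1 ω))) = cnt (Good K W q b) := by
    rw [← h1]
    exact cnt_invol (fun ω => Good K W q b (g2 ω)) g1 i1
  have h4 : tot V (Bool × Bool) ≤ cnt (fun ω : Conf V => (Good K W q b ω ∨ Good K W q b (g2 ω)) ∨
      (Good K W q b (g1 ω) ∨ Good K W q b (g2 (g1 ω)))) := by
    rw [← cnt_true]
    refine cnt_mono fun ω _ => ?_
    rw [hg1, hg2]
    rcases key ω with h5 | h5
    · exact Or.inl (good_or K W q b ω h5)
    · exact Or.inr (good_or K W q b _ h5)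
  have h5 : tot V (Bool × Bool) ≤ (cnt (Good K W q b) + cnt (fun ω => Good K W q b (g2 ω))) +
      (cnt (fun ω => Good K W q b (g1 ω)) + cnt (fun ω => Good K W q b (g2 (g1 ω)))) :=
    h4.trans ((cnt_or _ _).trans (Nat.add_le_add (cnt_or _ _) (cnt_or _ _)))
  rw [h1, h2, h3] at h5
  omega

/-- the partner of the edge behind position `δ` of the marker `m` -/
def pt (σ p : Equiv.Perm V) (m : V) (δ : ℕ) : V := p ((σ ^ δ) m)

/-- the `t`-th place of zone `z` is good for a cut -/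
def Fav (p : Equiv.Perm V) (m : V) (z : ℕ) (l : Bool) (t : ℕ) (ω : Conf V) : Prop :=
  Good K W (pt σ p m (z * W + 3 * t + 1)) (xor l (Nat.bodd (z * W + 3 * t + 2))) ω ∧
  Good K W (pt σ p m (z * W + 3 * t + 2)) (xor l (Nat.bodd (z * W + 3 * t + 2))) ω ∧
  Good K W (pt σ p m (z * W + 3 * t + 3)) (xor l (Nat.bodd (z * W + 3 * t + 2))) ω

/-- the coordinates of `Fav` -/
def FavC (p : Equiv.Perm V) (m : V) (z t : ℕ) : Set V :=
  K.B (pt σ p m (z * W + 3 * t + 1)) ∪ (K.B (pt σ p m (z * W + 3 * t + 2)) ∪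
    K.B (pt σ p m (z * W + 3 * t + 3)))

theorem fav_dep (p : Equiv.Perm V) (m : V) (z : ℕ) (l : Bool) (t : ℕ) :
    Dep (Fav K W p m z l t) (FavC K W p m z t) :=
  ((good_dep K W _ _).mono Set.subset_union_left).and
    ((((good_dep K W _ _).mono Set.subset_union_left).and
      ((good_dep K W _ _).mono Set.subset_union_right)).mono Set.subset_union_right)

/-- no two edges join the same two short pieces of cycles -/
def Far (σ p : Equiv.Perm V) (a b : ℕ) : Prop :=
  ∀ v j k, 0 < j → j < a → k < b →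
    p ((σ ^ j) v) ≠ (σ ^ k) (p v) ∧ p v ≠ (σ ^ k) (p ((σ ^ j) v))

theorem B_disj {p : Equiv.Perm V} (hF : Far σ p (2 * W) (4 * L)) (m : V) {δ δ' : ℕ}
    (h : δ < δ') (h' : δ' < 2 * W) : Disjoint (K.B (pt σ p m δ)) (K.B (pt σ p m δ')) := by
  rw [Set.disjoint_left]
  intro u h1 h2
  obtain ⟨k, hk, h3⟩ := K.near h1
  obtain ⟨k', hk', h4⟩ := K.near h2
  have h5 : (σ ^ δ') m = (σ ^ (δ' - δ)) ((σ ^ δ) m) := by
    rw [← Equiv.Perm.mul_apply, ← pow_add, Nat.sub_add_cancel h.le]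
  unfold pt at h3 h4
  rw [h5] at h4
  rcases Nat.le_total k k' with h6 | h6
  · refine (hF ((σ ^ δ) m) (δ' - δ) (k' - k) (by omega) (by omega) (by omega)).1 ?_
    rw [← h3, ← h4, ← Equiv.Perm.mul_apply, ← pow_add, Nat.sub_add_cancel h6]
  · refine (hF ((σ ^ δ) m) (δ' - δ) (k - k') (by omega) (by omega) (by omega)).2 ?_
    rw [← h3, ← h4, ← Equiv.Perm.mul_apply, ← pow_add, Nat.sub_add_cancel h6]

theorem favC_disj {p : Equiv.Perm V} (hF : Far σ p (2 * W) (4 * L)) (m : V) {z T s t : ℕ}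
    (hz : z ≤ 1) (hW : W = 3 * T + 4) (hst : s < t) (ht : t < T) :
    Disjoint (FavC K W p m z s) (FavC K W p m z t) := by
  have hz' : z * W ≤ W := by
    calc z * W ≤ 1 * W := Nat.mul_le_mul_right _ hz
      _ = W := one_mul W
  have key : ∀ i j, 1 ≤ i → i ≤ 3 → 1 ≤ j → j ≤ 3 →
      Disjoint (K.B (pt σ p m (z * W + 3 * s + i))) (K.B (pt σ p m (z * W + 3 * t + j))) := by
    intro i j h1 h2 h3 h4
    exact B_disj K W hF m (by omega) (by omega)
  unfold FavC
  simp only [Set.disjoint_union_left, Set.disjoint_union_right]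
  constructorm* _ ∧ _
  all_goals exact key _ _ (by omega) (by omega) (by omega) (by omega)

theorem fav_cnt [Fintype V] {p : Equiv.Perm V} (hF : Far σ p (2 * W) (4 * L)) (m : V) {z T t : ℕ}
    (l : Bool) (hz : z ≤ 1) (hW : W = 3 * T + 4) (ht : t < T) :
    64 * cnt (fun ω => ¬ Fav K W p m z l t ω) ≤ 63 * tot V (Bool × Bool) := by
  have hz' : z * W ≤ W := by
    calc z * W ≤ 1 * W := Nat.mul_le_mul_right _ hz
      _ = W := one_mul W
  refine compl_bound ?_
  exact three (good_dep K W _ _) (good_dep K W _ _) (good_dep K W _ _)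
    (B_disj K W hF m (by omega) (by omega)) (B_disj K W hF m (by omega) (by omega))
    (B_disj K W hF m (by omega) (by omega)) (good_cnt K W _ _) (good_cnt K W _ _)
    (good_cnt K W _ _)

/-- the bad event at a marker -/
def Bad (p : Equiv.Perm V) (T : ℕ) (m : V) (ω : Conf V) : Prop :=
  m ∈ K.S ∧ ∀ t < T, ¬ Fav K W p m (zz ω m) (lam K ω m) t ω

/-- the relevant elements of a marker -/
def Yel (σ p : Equiv.Perm V) (W : ℕ) (m : V) : Set V :=
  {y | y = m ∨ ∃ δ < 2 * W, y = pt σ p m δ}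

/-- the coordinates of the bad event -/
def BadD (p : Equiv.Perm V) (m : V) : Set V := {u | m ∈ K.S ∧ ∃ y ∈ Yel σ p W m, u ∈ K.B y}

theorem bad_dep (hL : 0 < L) (p : Equiv.Perm V) {T : ℕ} (hW : W = 3 * T + 4) (m : V) :
    Dep (Bad K W p T m) (BadD K W p m) := by
  intro ω ω' h h1
  obtain ⟨hm, h1⟩ := h1
  refine ⟨hm, fun t ht h2 => h1 t ht ?_⟩
  have h3 : ω m = ω' m := h m ⟨hm, m, Or.inl rfl, Or.inl (K.lst_marker hL hm).symm⟩
  have h4 : ω (K.pm m) = ω' (K.pm m) :=
    h _ ⟨hm, m, Or.inl rfl, Or.inr (by rw [K.lst_marker hL hm])⟩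
  have h5 : zz ω m = zz ω' m := by
    unfold zz
    rw [h3]
  have h6 : lam K ω m = lam K ω' m := by
    unfold lam
    rw [h4]
  have hz : zz ω' m * W ≤ W := by
    have : zz ω' m ≤ 1 := by
      unfold zz
      split_ifs <;> omega
    calc zz ω' m * W ≤ 1 * W := Nat.mul_le_mul_right _ this
      _ = W := one_mul W
  rw [h5, h6]
  refine (fav_dep K W p m (zz ω' m) (lam K ω' m) t) ω' ω (fun i hi => (h i ?_).symm) h2
  rcases hi with hi | hi | hi
  · exact ⟨hm, _, Or.inr ⟨zz ω' m * W + 3 * t + 1, by omega, rfl⟩, hi⟩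
  · exact ⟨hm, _, Or.inr ⟨zz ω' m * W + 3 * t + 2, by omega, rfl⟩, hi⟩
  · exact ⟨hm, _, Or.inr ⟨zz ω' m * W + 3 * t + 3, by omega, rfl⟩, hi⟩

theorem bad_cnt [Fintype V] {p : Equiv.Perm V} (hF : Far σ p (2 * W) (4 * L)) {T : ℕ}
    (hW : W = 3 * T + 4) (m : V) :
    64 ^ T * cnt (Bad K W p T m) ≤ 4 * (63 ^ T * tot V (Bool × Bool)) := by
  have h1 : ∀ z l, z ≤ 1 → 64 ^ T * cnt (fun ω : Conf V => ∀ t < T, ¬ Fav K W p m z l t ω) ≤
      63 ^ T * tot V (Bool × Bool) := by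
    intro z l hz
    exact prod_bound (fun t ω => ¬ Fav K W p m z l t ω) (FavC K W p m z) 64 63 T
      (fun t _ => (fav_dep K W p m z l t).not)
      (fun s t hst ht => favC_disj K W hF m hz hW hst ht)
      (fun t ht => fav_cnt K W hF m l hz hW ht)
  have h2 : cnt (Bad K W p T m) ≤ cnt (fun ω : Conf V =>
      ((∀ t < T, ¬ Fav K W p m 0 false t ω) ∨ (∀ t < T, ¬ Fav K W p m 0 true t ω)) ∨
      ((∀ t < T, ¬ Fav K W p m 1 false t ω) ∨ (∀ t < T, ¬ Fav K W p m 1 true t ω))) := by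
    refine cnt_mono fun ω h => ?_
    obtain ⟨-, h⟩ := h
    cases h3 : lam K ω m
    · rw [h3] at h
      by_cases h4 : (ω m).1 = true
      · have h5 : zz ω m = 1 := by simp [zz, h4]
        rw [h5] at h
        exact Or.inr (Or.inl h)
      · have h5 : zz ω m = 0 := by simp [zz, h4]
        rw [h5] at h
        exact Or.inl (Or.inl h)
    · rw [h3] at h
      by_cases h4 : (ω m).1 = true
      · have h5 : zz ω m = 1 := by simp [zz, h4]
        rw [h5] at h
        exact Or.inr (Or.inr h)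
      · have h5 : zz ω m = 0 := by simp [zz, h4]
        rw [h5] at h
        exact Or.inl (Or.inr h)
  have h6 : cnt (Bad K W p T m) ≤ (cnt (fun ω : Conf V => ∀ t < T, ¬ Fav K W p m 0 false t ω) +
      cnt (fun ω : Conf V => ∀ t < T, ¬ Fav K W p m 0 true t ω)) +
      (cnt (fun ω : Conf V => ∀ t < T, ¬ Fav K W p m 1 false t ω) +
      cnt (fun ω : Conf V => ∀ t < T, ¬ Fav K W p m 1 true t ω)) :=
    h2.trans ((cnt_or _ _).trans (Nat.add_le_add (cnt_or _ _) (cnt_or _ _)))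
  have h7 := Nat.mul_le_mul_left (64 ^ T) h6
  have e1 := h1 0 false (by omega)
  have e2 := h1 0 true (by omega)
  have e3 := h1 1 false (by omega)
  have e4 := h1 1 true (by omega)
  rw [mul_add, mul_add, mul_add] at h7
  omega

theorem bad_deg [Fintype V] (hWL : 2 * W ≤ L) (p : Equiv.Perm V) (m : V) :
    (univ.filter fun m' => ¬ Disjoint (BadD K W p m) (BadD K W p m')).card ≤
      (2 * W + 1) * (8 * L) * 2 := by
  let f : Option (Fin (2 * W)) × Fin (8 * L) × Bool → V := fun x =>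
    let y := x.1.elim m (fun δ => pt σ p m δ)
    let y' := (σ ^ (((x.2.1 : ℕ) : ℤ) - 4 * L)) y
    if x.2.2 then y' else K.lst (p⁻¹ y')
  have h1 : (univ.filter fun m' => ¬ Disjoint (BadD K W p m) (BadD K W p m')) ⊆
      univ.image f := by
    intro m' hm'
    have h2 := (Finset.mem_filter.1 hm').2
    rw [Set.not_disjoint_iff] at h2
    obtain ⟨u, ⟨hm, y, hy, hu⟩, ⟨hm2, y', hy', hu'⟩⟩ := h2
    obtain ⟨k, hk, h3⟩ := K.near hu
    obtain ⟨k', hk', h4⟩ := K.near hu'
    obtain ⟨o, ho⟩ : ∃ o : Option (Fin (2 * W)), o.elim m (fun δ => pt σ p m δ) = y := by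
      rcases hy with h5 | ⟨δ, hδ, h5⟩
      · exact ⟨none, h5.symm⟩
      · exact ⟨some ⟨δ, hδ⟩, h5.symm⟩
    have hj : k' + 4 * L - k < 8 * L := by omega
    have h5 : (σ ^ (((k' + 4 * L - k : ℕ) : ℤ) - 4 * L)) y = y' := by
      have h6 : (((k' + 4 * L - k : ℕ) : ℤ) - 4 * L) = (k' : ℤ) + -(k : ℤ) := by
        have : k ≤ k' + 4 * L := by omega
        push_cast [Nat.cast_sub this]
        ring
      rw [h6, zpow_add, Equiv.Perm.mul_apply, zpow_neg, zpow_natCast, zpow_natCast, ← h3]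
      simp [h4]
    rw [Finset.mem_image]
    rcases hy' with h6 | ⟨δ, hδ, h6⟩
    · refine ⟨(o, ⟨_, hj⟩, true), Finset.mem_univ _, ?_⟩
      simp only [f, ho]
      rw [h5, h6]
      simp
    · refine ⟨(o, ⟨_, hj⟩, false), Finset.mem_univ _, ?_⟩
      simp only [f, ho]
      rw [h5, h6]
      simp only [pt, Bool.false_eq_true, if_false]
      have h7 : p⁻¹ (p ((σ ^ δ) m')) = (σ ^ δ) m' := by simp
      rw [h7]
      exact K.lst_of hm2 δ (by omega)
  refine (Finset.card_le_card h1).trans (Finset.card_image_le.trans ?_)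
  rw [Finset.card_univ, Fintype.card_prod, Fintype.card_prod, Fintype.card_option,
    Fintype.card_fin, Fintype.card_fin, Fintype.card_bool]
  exact le_of_eq (by ring)

end Pool.Agent.JWG
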